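import Mathlib

namespace Pool.Agent.H.MP_541d58_an

open Metric Set Filter Topology RealInnerProductSpace

variable {E : Type} [NormedAddCommGroup E] [InnerProductSpace ℝ E]

lemma near {T : Set E} {c y0 : E} (hc : c ∈ interior T) (hy : y0 ∉ T) {k : ℝ} (hk : 0 < k) :
    ∃ (r : ℝ) (v : E) (p : ℝ), 0 < r ∧ ball c r ⊆ T ∧ ‖v‖ = 1 ∧ r ≤ p ∧ p ≤ (1 + k) * r ∧
      c + p • v ∉ T ∧ r ≤ dist c y0 := by
  have hne : (Tᶜ).Nonempty := ⟨y0, hy⟩
  have hr : 0 < infDist c Tᶜ := by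
    rw [← infDist_pos_iff_notMem_closure hne, closure_compl]
    exact fun h => h hc
  obtain ⟨w, hw, hd⟩ := (infDist_lt_iff hne).1 (show infDist c Tᶜ < (1 + k) * infDist c Tᶜ by nlinarith)
  have h1 : infDist c Tᶜ ≤ dist c w := infDist_le_dist_of_mem hw
  have h2 : 0 < ‖w - c‖ := by rw [← dist_eq_norm, dist_comm]; linarith
  refine ⟨infDist c Tᶜ, ‖w - c‖⁻¹ • (w - c), ‖w - c‖, hr, ?_, ?_, ?_, ?_, ?_, infDist_le_dist_of_mem hy⟩
  · have := ball_infDist_compl_subset (x := c) (s := T)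
    exact this
  · rw [norm_smul, norm_inv, norm_norm, inv_mul_cancel₀ h2.ne']
  · rw [← dist_eq_norm, dist_comm]; exact h1
  · rw [← dist_eq_norm, dist_comm]; exact hd.le
  · rw [smul_smul, mul_inv_cancel₀ h2.ne', one_smul, add_sub_cancel]; exact hw

lemma nsq (v q : E) (hv : ‖v‖ = 1) (p t : ℝ) :
    ‖p • v - t • q‖ ^ 2 = p ^ 2 - 2 * p * t * ⟪q, v⟫ + t ^ 2 * ‖q‖ ^ 2 := by
  rw [norm_sub_sq_real, norm_smul, norm_smul, real_inner_smul_left, real_inner_smul_right, hv,
    real_inner_comm, Real.norm_eq_abs, Real.norm_eq_abs, mul_pow, mul_pow, sq_abs, sq_abs]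
  ring

structure St (E : Type) where
  T : Set E
  c : E
  r : ℝ
  v : E
  p : ℝ
  q : E

def Good (F : Set (Set E)) (k : ℝ) (s : St E) : Prop :=
  s.T ∈ F ∧ 0 < s.r ∧ ball s.c s.r ⊆ s.T ∧ ‖s.v‖ = 1 ∧ s.r ≤ s.p ∧ s.p ≤ (1 + k) * s.r ∧
    s.c + s.p • s.v ∉ s.T ∧ 1 ≤ ⟪s.q, s.v⟫

lemma step {F : Set (Set E)} (hF : ∀ C ∈ F, IsClosed C ∧ Convex ℝ C ∧ (interior C).Nonempty)
    (hd : F.PairwiseDisjoint id) (hu : ⋃₀ F = univ) {k k' M : ℝ} (hk : 0 < k) (hk' : 0 < k')
    (hM : 1 ≤ M) (h1 : 16 * k * M ^ 2 ≤ 1) (h2 : 6 * k' * M ^ 2 ≤ 1) (s : St E) (hs : Good F k s)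
    (hq : ‖s.q‖ ≤ M) : ∃ s' : St E, Good F k' s' ∧ (∃ a : ℝ, 1 ≤ a ∧ s'.q = s.q + a • s'.v) ∧
      ‖s'.q‖ ^ 2 ≤ ‖s.q‖ ^ 2 + 3 ∧ s'.r ≤ s.r / 2 ∧
      ∀ x ∈ closedBall s'.c (3 * s'.r), x ∉ s.T ∧ dist x (s.c + s.p • s.v) ≤ 10 * k * M * s.r := by
  obtain ⟨T, c, r, v, p, q⟩ := s
  obtain ⟨hT, hr, hb, hv, hp1, hp2, hw, hqv⟩ := hs
  simp only at *
  have hM2 : 1 ≤ M ^ 2 := by nlinarith
  have hk1 : k ≤ 1 / 16 := by nlinarith [mul_le_mul_of_nonneg_left hM2 hk.le]
  have hk1' : k' ≤ 1 / 6 := by nlinarith [mul_le_mul_of_nonneg_left hM2 hk'.le]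
  have hq2 : ‖q‖ ^ 2 ≤ M ^ 2 := pow_le_pow_left₀ (norm_nonneg _) hq 2
  obtain ⟨T', hT', hwT'⟩ : ∃ T' ∈ F, c + p • v ∈ T' := by
    have : c + p • v ∈ ⋃₀ F := hu ▸ mem_univ _
    exact this
  have hdis : Disjoint T' T := hd hT' hT fun e => hw (e ▸ hwT')
  obtain ⟨hcl, hcv, hint⟩ := hF T' hT'
  obtain ⟨y, hy, hyw⟩ : ∃ y ∈ interior T', dist (c + p • v) y < k * r := by
    have : c + p • v ∈ closure (interior T') := by
      rw [hcv.closure_interior_eq_closure_of_nonempty_interior hint]; exact subset_closure hwT'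
    exact Metric.mem_closure_iff.1 this _ (by positivity)
  have hts : y - (8 * k * r) • q ∉ T' := by
    intro h
    refine disjoint_left.1 hdis h (hb ?_)
    have e1 : ‖p • v - (8 * k * r) • q‖ ≤ (1 - 2 * k) * r := by
      refine (pow_le_pow_iff_left₀ (norm_nonneg _) (mul_nonneg (by linarith) hr.le) two_ne_zero).1 ?_
      rw [nsq _ _ hv]
      have a1 : p * (8 * k * r) ≤ p * (8 * k * r) * ⟪q, v⟫ :=
        le_mul_of_one_le_right (by have := hr.trans_le hp1; positivity) hqv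
      have a2 : (8 * k * r) ^ 2 * ‖q‖ ^ 2 ≤ 4 * k * r ^ 2 := by
        calc _ ≤ (8 * k * r) ^ 2 * M ^ 2 := mul_le_mul_of_nonneg_left hq2 (by positivity)
          _ = 4 * k * r ^ 2 * (16 * k * M ^ 2) := by ring
          _ ≤ _ := mul_le_of_le_one_right (by positivity) h1
      have a3 : p ^ 2 ≤ ((1 + k) * r) ^ 2 := pow_le_pow_left₀ (by linarith) hp2 2
      have a4 : r * (8 * k * r) ≤ p * (8 * k * r) := mul_le_mul_of_nonneg_right hp1 (by positivity)
      have a5 : k * k * r ^ 2 ≤ k * r ^ 2 := by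
        refine mul_le_mul_of_nonneg_right ?_ (by positivity); nlinarith
      have a6 : 0 ≤ k * r ^ 2 := by positivity
      nlinarith [sq_nonneg (k * r)]
    rw [mem_ball, dist_eq_norm]
    have e2 : y - (8 * k * r) • q - c = (p • v - (8 * k * r) • q) + (y - (c + p • v)) := by abel
    rw [e2]
    refine (norm_add_le _ _).trans_lt ?_
    rw [dist_comm, dist_eq_norm] at hyw
    nlinarith [mul_pos hk hr]
  set A : Set ℝ := Icc 0 (8 * k * r) ∩ (fun t => y - t • q) ⁻¹' T' with hA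
  have hAc : IsCompact A := isCompact_Icc.inter_right (hcl.preimage (by fun_prop))
  have hA0 : (0 : ℝ) ∈ A := ⟨⟨le_rfl, by positivity⟩, by simpa using interior_subset hy⟩
  obtain ⟨t, ⟨⟨ht0, ht1⟩, htT⟩, hmax⟩ := hAc.exists_isGreatest ⟨0, hA0⟩
  have htT : y - t • q ∈ T' := htT
  have ht2 : t < 8 * k * r := lt_of_le_of_ne ht1 fun e => hts (e ▸ htT)
  have ht3 : 0 < t := by
    have c1 : ∀ᶠ u in 𝓝 (0 : ℝ), y - u • q ∈ interior T' :=
      (by fun_prop : Continuous fun u : ℝ => y - u • q).continuousAt.eventually_mem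
        (isOpen_interior.mem_nhds (by simpa using hy))
    have c2 : ∀ᶠ u in 𝓝 (0 : ℝ), u < 8 * k * r := eventually_lt_nhds (by positivity)
    obtain ⟨u, ⟨a, b⟩, hu0⟩ := (((c1.and c2).filter_mono nhdsWithin_le_nhds).and
      (self_mem_nhdsWithin : Ioi (0 : ℝ) ∈ 𝓝[>] 0)).exists
    exact lt_of_lt_of_le hu0 (hmax ⟨⟨le_of_lt hu0, b.le⟩, show y - u • q ∈ T' from interior_subset a⟩)
  obtain ⟨d0, hd0, hdb⟩ := Metric.isOpen_iff.1 (hF T hT).1.isOpen_compl (y - t • q)
    (disjoint_left.1 hdis htT)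
  obtain ⟨h, hh0, hh1, hh2, hh3, hh4⟩ : ∃ h : ℝ, 0 < h ∧ h ≤ 8 * k * r - t ∧ 8 * M * h ≤ d0 ∧
      8 * M * h ≤ k * r ∧ 32 * M * h ≤ t := by
    refine ⟨min (min (8 * k * r - t) (d0 / (8 * M))) (min (k * r / (8 * M)) (t / (32 * M))),
      lt_min (lt_min (by linarith) (by positivity)) (by positivity),
      (min_le_left _ _).trans (min_le_left _ _), ?_, ?_, ?_⟩
    · rw [← le_div_iff₀' (by positivity)]; exact (min_le_left _ _).trans (min_le_right _ _)
    · rw [← le_div_iff₀' (by positivity)]; exact (min_le_right _ _).trans (min_le_left _ _)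
    · rw [← le_div_iff₀' (by positivity)]; exact (min_le_right _ _).trans (min_le_right _ _)
  have hhM : h ≤ M * h := le_mul_of_one_le_left hh0.le hM
  have hc' : y - (t - h) • q ∈ interior T' := by
    have := hcv.combo_interior_self_mem_interior hy htT (a := h / t) (b := 1 - h / t) (by positivity)
      (by rw [sub_nonneg, div_le_one ht3]; linarith) (by ring)
    convert this using 1
    have : (1 - h / t) * t = t - h := by field_simp
    rw [smul_sub, smul_smul, this]; module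
  have hy0 : y - (t + h) • q ∉ T' := fun e => by
    have := hmax ⟨⟨by linarith, by linarith⟩, e⟩
    linarith
  obtain ⟨r', v', p', g1, g2, g3, g4, g5, g6, g7⟩ := near hc' hy0 hk'
  have hr' : r' ≤ 2 * (M * h) := by
    refine g7.trans ?_
    rw [dist_eq_norm, show y - (t - h) • q - (y - (t + h) • q) = (2 * h) • q by module, norm_smul,
      Real.norm_of_nonneg (by positivity)]
    nlinarith
  have hin : ⟪q, v'⟫ ≤ 1 := by
    by_contra hcon
    push Not at hcon
    have hl : 0 < t - h := by nlinarith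
    set u : ℝ := r' / M ^ 2 with hu'
    have hu0 : 0 < u := by positivity
    have huM : u * M ^ 2 = r' := by rw [hu']; field_simp
    have hur : u ≤ r' := by nlinarith
    set a : ℝ := u / (t - h) with ha
    have ha0 : 0 < a := by positivity
    have hal : a * (t - h) = u := by rw [ha]; field_simp
    have ha4 : 4 * (a * M ^ 2) < 1 := by
      have : a * M ^ 2 * (t - h) = r' := by rw [← huM, ← hal]; ring
      by_contra hc
      push Not at hc
      nlinarith
    have ha1 : a < 1 / 4 := by nlinarith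
    have e1 : ‖p' • v' - u • q‖ < (1 - a) * r' := by
      refine lt_of_pow_lt_pow_left₀ 2 (by nlinarith) ?_
      rw [nsq _ _ g3]
      have a1 : p' * u ≤ p' * u * ⟪q, v'⟫ :=
        le_mul_of_one_le_right (by have := g1.trans_le g4; positivity) hcon.le
      have a2 : u ^ 2 * ‖q‖ ^ 2 ≤ u * r' := by
        calc _ ≤ u ^ 2 * M ^ 2 := mul_le_mul_of_nonneg_left hq2 (by positivity)
          _ = _ := by rw [← huM]; ring
      have a3 : p' ^ 2 ≤ ((1 + k') * r') ^ 2 := pow_le_pow_left₀ (by linarith) g5 2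
      have a4 : r' * u ≤ p' * u := mul_le_mul_of_nonneg_right g4 hu0.le
      have a5 : k' * k' * r' ^ 2 ≤ k' * r' ^ 2 := by
        refine mul_le_mul_of_nonneg_right ?_ (by positivity); nlinarith
      have a6 : 6 * k' * r' ^ 2 ≤ u * r' := by
        calc _ = 6 * k' * M ^ 2 * (u * r') := by rw [← huM]; ring
          _ ≤ _ := mul_le_of_le_one_left (by positivity) h2
      have a7 : 4 * a * r' ^ 2 < u * r' := by
        calc _ = 4 * (a * M ^ 2) * (u * r') := by rw [← huM]; ring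
          _ < _ := mul_lt_of_lt_one_left (by positivity) ha4
      nlinarith [sq_nonneg (a * r')]
    have e2 : y - (t - h) • q + (1 - a)⁻¹ • (p' • v' - u • q) ∈ T' := by
      refine g2 ?_
      rw [mem_ball, dist_eq_norm, add_sub_cancel_left, norm_smul, norm_inv,
        Real.norm_of_nonneg (by linarith), inv_mul_lt_iff₀ (by linarith)]
      exact e1
    have e3 := hcv e2 (interior_subset hy) (a := 1 - a) (b := a) (by linarith) ha0.le (by ring)
    refine g6 ?_
    convert e3 using 1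
    rw [smul_add, smul_smul, mul_inv_cancel₀ (by linarith : (1 - a) ≠ 0), one_smul, ← hal]
    module
  refine ⟨⟨T', y - (t - h) • q, r', v', p', q + max 1 (1 - ⟪q, v'⟫) • v'⟩,
    ⟨hT', g1, g2, g3, g4, g5, g6, ?_⟩, ⟨max 1 (1 - ⟪q, v'⟫), le_max_left _ _, rfl⟩, ?_, ?_, fun x hx => ?_⟩
  · simp only
    rw [inner_add_left, real_inner_smul_left, real_inner_self_eq_norm_sq, g3]
    linarith [le_max_right 1 (1 - ⟪q, v'⟫)]
  · simp only
    rw [norm_add_sq_real, real_inner_smul_right, norm_smul, g3, Real.norm_eq_abs, mul_one, sq_abs]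
    rcases max_cases 1 (1 - ⟪q, v'⟫) with e | e <;> rw [e.1] <;> nlinarith [e.2]
  · simp only; nlinarith
  simp only at hx ⊢
  have hx1 : dist x (y - t • q) ≤ 7 * (M * h) := by
    have a1 : dist (y - (t - h) • q) (y - t • q) ≤ M * h := by
      rw [dist_eq_norm, show y - (t - h) • q - (y - t • q) = h • q by module, norm_smul,
        Real.norm_of_nonneg hh0.le]
      nlinarith
    have := dist_triangle x (y - (t - h) • q) (y - t • q)
    rw [mem_closedBall] at hx
    linarith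
  refine ⟨hdb (mem_ball.2 (by nlinarith [mul_pos (zero_lt_one.trans_le hM) hh0])), ?_⟩
  have a1 : dist (y - t • q) y ≤ 8 * k * r * M := by
    rw [dist_eq_norm, sub_sub_cancel_left, norm_neg, norm_smul, Real.norm_of_nonneg ht0]
    exact mul_le_mul ht1 hq (norm_nonneg _) (by positivity)
  have a2 := dist_triangle4 x (y - t • q) y (c + p • v)
  rw [dist_comm] at hyw
  have a3 : k * r ≤ k * r * M := le_mul_of_one_le_right (by positivity) hM
  nlinarith

theorem main [CompleteSpace E] {F : Set (Set E)}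
    (hF : ∀ C ∈ F, IsClosed C ∧ Convex ℝ C ∧ (interior C).Nonempty)
    (hd : F.PairwiseDisjoint id) (hu : ⋃₀ F = univ) (hne : ∀ C ∈ F, C ≠ univ) : False := by
  set k : ℕ → ℝ := fun n => 1 / (100 * ((n : ℝ) + 1) ^ 2) with hk
  have k0 : ∀ n, 0 < k n := fun n => by simp only [hk]; positivity
  have st : ∀ (n : ℕ) (s : {s : St E // Good F (k n) s ∧ ‖s.q‖ ^ 2 ≤ 3 * (n + 1)}),
      ∃ s' : {s : St E // Good F (k (n + 1)) s ∧ ‖s.q‖ ^ 2 ≤ 3 * ((n + 1 : ℕ) + 1)},
      (∃ a : ℝ, 1 ≤ a ∧ s'.1.q = s.1.q + a • s'.1.v) ∧ s'.1.r ≤ s.1.r / 2 ∧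
      ∀ x ∈ closedBall s'.1.c (3 * s'.1.r), x ∉ s.1.T ∧
        dist x (s.1.c + s.1.p • s.1.v) ≤ 1 / (5 * ((n : ℝ) + 1)) * s.1.r := by
    rintro n ⟨s, hs, hq⟩
    have hn : (0 : ℝ) ≤ n := by positivity
    obtain ⟨s', a, b, c, d, e⟩ := step hF hd hu (k0 n) (k0 (n + 1)) (M := 2 * ((n : ℝ) + 1)) (by linarith)
      (by simp only [hk]; field_simp; norm_num)
      (by simp only [hk]; push_cast; field_simp; nlinarith) s hs
      ((pow_le_pow_iff_left₀ (norm_nonneg _) (by positivity) two_ne_zero).1 (by nlinarith))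
    refine ⟨⟨s', a, by push_cast; linarith⟩, b, d, fun x hx => ⟨(e x hx).1, (e x hx).2.trans (le_of_eq ?_)⟩⟩
    simp only [hk]; field_simp; ring
  choose f hf using st
  obtain ⟨s0, hs0⟩ : ∃ s : St E, Good F (k 0) s ∧ ‖s.q‖ ^ 2 ≤ 3 * ((0 : ℕ) + 1) := by
    obtain ⟨T, hT, -⟩ : ∃ T ∈ F, (0 : E) ∈ T := by
      have : (0 : E) ∈ ⋃₀ F := hu ▸ mem_univ _
      exact this
    obtain ⟨c, hc⟩ := (hF T hT).2.2
    obtain ⟨y, hy⟩ := (ne_univ_iff_exists_notMem T).1 (hne T hT)
    obtain ⟨r, v, p, g1, g2, g3, g4, g5, g6, -⟩ := near hc hy (k0 0)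
    exact ⟨⟨T, c, r, v, p, v⟩, ⟨hT, g1, g2, g3, g4, g5, g6, by
      simp only; rw [real_inner_self_eq_norm_sq, g3]; norm_num⟩, by simp only; rw [g3]; norm_num⟩
  let S : ∀ n : ℕ, {s : St E // Good F (k n) s ∧ ‖s.q‖ ^ 2 ≤ 3 * (n + 1)} :=
    fun n => Nat.rec ⟨s0, hs0⟩ (fun n s => f n s) n
  obtain ⟨s, hS, hG, hQ⟩ : ∃ s : ℕ → St E, (∀ n, (∃ a : ℝ, 1 ≤ a ∧ (s (n + 1)).q = (s n).q + a • (s (n + 1)).v) ∧
      (s (n + 1)).r ≤ (s n).r / 2 ∧
      ∀ x ∈ closedBall (s (n + 1)).c (3 * (s (n + 1)).r), x ∉ (s n).T ∧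
        dist x ((s n).c + (s n).p • (s n).v) ≤ 1 / (5 * ((n : ℝ) + 1)) * (s n).r) ∧
      (∀ n, Good F (k n) (s n)) ∧ ∀ n : ℕ, ‖(s n).q‖ ^ 2 ≤ 3 * (n + 1) :=
    ⟨fun n => (S n).1, fun n => hf n (S n), fun n => (S n).2.1, fun n => (S n).2.2⟩
  clear S hf f hs0 s0
  have r0 : ∀ n, 0 < (s n).r := fun n => (hG n).2.1
  have k1 : ∀ n : ℕ, k n ≤ 1 / (5 * ((n : ℝ) + 1)) := fun n => by
    have hn : (0 : ℝ) ≤ n := by positivity
    simp only [hk]
    exact one_div_le_one_div_of_le (by positivity) (by nlinarith)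
  have k2 : ∀ n : ℕ, 1 / (5 * ((n : ℝ) + 1)) ≤ 1 := fun n => by
    have hn : (0 : ℝ) ≤ n := by positivity
    rw [div_le_one (by positivity)]; linarith
  have nest : ∀ n, closedBall (s (n + 1)).c (3 * (s (n + 1)).r) ⊆ closedBall (s n).c (3 * (s n).r) := by
    intro n x hx
    have a1 := ((hS n).2.2 x hx).2
    have a2 : dist ((s n).c + (s n).p • (s n).v) (s n).c = (s n).p := by
      rw [dist_eq_norm, add_sub_cancel_left, norm_smul, (hG n).2.2.2.1, mul_one,
        Real.norm_of_nonneg ((r0 n).le.trans (hG n).2.2.2.2.1)]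
    have a3 := (hG n).2.2.2.2.2.1
    have a4 := dist_triangle x ((s n).c + (s n).p • (s n).v) (s n).c
    have a5 := mul_le_mul_of_nonneg_right ((k1 n).trans (k2 n)) (r0 n).le
    have a6 := mul_le_mul_of_nonneg_right (k2 n) (r0 n).le
    rw [mem_closedBall]; nlinarith
  have rb : ∀ n, (s n).r ≤ (s 0).r / 2 ^ n := by
    intro n
    induction n with
    | zero => simp
    | succ n ih => rw [pow_succ, ← div_div]; linarith [(hS n).2.1]
  have cau : CauchySeq fun n => (s n).c := by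
    refine cauchySeq_of_le_geometric_two (C := 6 * (s 0).r) fun n => ?_
    have := nest n (mem_closedBall_self (by linarith [r0 (n + 1)]))
    rw [mem_closedBall, dist_comm] at this
    calc _ ≤ 3 * ((s 0).r / 2 ^ n) := this.trans (by linarith [rb n])
      _ = _ := by ring
  obtain ⟨x, hx⟩ := cauchySeq_tendsto_of_complete cau
  have hanti : Antitone fun n => closedBall (s n).c (3 * (s n).r) := antitone_nat_of_succ_le nest
  have hxm : ∀ n, x ∈ closedBall (s n).c (3 * (s n).r) := fun n =>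
    isClosed_closedBall.mem_of_tendsto hx ((eventually_ge_atTop n).mono fun m hm =>
      hanti hm (mem_closedBall_self (by linarith [r0 m])))
  obtain ⟨T, hT, hxT⟩ : ∃ T ∈ F, x ∈ T := by
    have : x ∈ ⋃₀ F := hu ▸ mem_univ _
    exact this
  obtain ⟨-, hcv, u, hu'⟩ := hF T hT
  obtain ⟨e0, he0, hb⟩ := Metric.isOpen_iff.1 isOpen_interior u hu'
  set e : ℝ := e0 / 2 with he
  have he1 : 0 < e := by positivity
  set G : ℝ := ‖u - x‖ + e with hGd
  have hG0 : 0 < G := by positivity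
  set m : ℝ := e / (2 * G ^ 2) with hm
  have hm0 : 0 < m := by positivity
  have t1 : Tendsto (fun n : ℕ => 1 / (5 * ((n : ℝ) + 1))) atTop (𝓝 0) := by
    have := tendsto_one_div_add_atTop_nhds_zero_nat (𝕜 := ℝ).const_mul (1 / 5)
    rw [mul_zero] at this
    exact this.congr fun n => by field_simp
  have t2 : Tendsto (fun n : ℕ => m * ((s 0).r / 2 ^ n)) atTop (𝓝 0) := by
    have := ((tendsto_pow_atTop_atTop_of_one_lt (one_lt_two (α := ℝ))).const_div_atTop (s 0).r).const_mul m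
    rwa [mul_zero] at this
  obtain ⟨N, hN⟩ := eventually_atTop.1 ((t1.eventually_lt_const (show 0 < m * e / 10 by positivity)).and
    (t2.eventually_lt_const one_pos))
  have key : ∀ n ≥ N, e / 2 ≤ ⟪u - x, (s n).v⟫ := by
    intro n hn
    obtain ⟨b1, b2⟩ := hN n hn
    by_contra hcon
    push Not at hcon
    obtain ⟨x1, x2⟩ := (hS n).2.2 x (hxm (n + 1))
    obtain ⟨g0, g1, g2, g3, g4, g5, -⟩ := hG n
    have k1n := k1 n
    have k2n := k2 n
    have k0n := k0 n
    have rbn := rb n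
    generalize 1 / (5 * ((n : ℝ) + 1)) = b at *
    generalize k n = kk at *
    generalize s n = sn at *
    obtain ⟨T', c, r, v, p, q⟩ := sn
    simp only at *
    have hdis : Disjoint T T' := hd hT g0 fun e => x1 (e ▸ hxT)
    have hmr : m * r ≤ 1 := (mul_le_mul_of_nonneg_left rbn hm0.le).trans b2.le
    have hpt : u - e • v ∈ T := interior_subset (hb (by
      rw [mem_ball, dist_eq_norm, sub_sub_cancel_left, norm_neg, norm_smul, g3, mul_one,
        Real.norm_of_nonneg he1.le]; linarith))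
    have hin := hcv hxT hpt (a := 1 - m * r) (b := m * r) (by linarith) (by positivity) (by ring)
    refine disjoint_left.1 hdis hin (g2 ?_)
    set g : E := e • v - (u - x) with hg
    have hg1 : ‖g‖ ≤ G := by
      refine (norm_sub_le _ _).trans ?_
      rw [norm_smul, g3, mul_one, Real.norm_of_nonneg he1.le]; linarith
    have hg2 : e / 2 ≤ ⟪g, v⟫ := by
      rw [hg, inner_sub_left, real_inner_smul_left, real_inner_self_eq_norm_sq, g3]; linarith
    have hbe : m * G ^ 2 = e / 2 := by rw [hm]; field_simp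
    have e1 : ‖p • v - (m * r) • g‖ < (1 - b) * r := by
      refine lt_of_pow_lt_pow_left₀ 2 (mul_nonneg (by linarith) g1.le) ?_
      rw [nsq _ _ g3]
      have a1 : r * (m * r) * (e / 2) ≤ p * (m * r) * ⟪g, v⟫ :=
        mul_le_mul (mul_le_mul_of_nonneg_right g4 (by positivity)) hg2 (by positivity)
          (by have := g1.trans_le g4; positivity)
      have a2 : (m * r) ^ 2 * ‖g‖ ^ 2 ≤ m * (e / 2) * r ^ 2 := by
        calc _ ≤ (m * r) ^ 2 * G ^ 2 :=
              mul_le_mul_of_nonneg_left (pow_le_pow_left₀ (norm_nonneg _) hg1 2) (by positivity)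
          _ = _ := by rw [← hbe]; ring
      have a3 : p ^ 2 ≤ ((1 + kk) * r) ^ 2 := pow_le_pow_left₀ (by linarith) g5 2
      have a4 : (1 + kk) ^ 2 ≤ 1 + 3 * b := by nlinarith
      have a5 := mul_le_mul_of_nonneg_right a4 (sq_nonneg r)
      have a6 := mul_lt_mul_of_pos_right b1 (show 0 < r ^ 2 by positivity)
      nlinarith [sq_nonneg (b * r)]
    rw [mem_ball, dist_eq_norm, show (1 - m * r) • x + (m * r) • (u - e • v) - c =
      (p • v - (m * r) • g) + (x - (c + p • v)) by rw [hg]; module]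
    refine (norm_add_le _ _).trans_lt ?_
    rw [dist_eq_norm] at x2
    linarith
  have grow : ∀ j : ℕ, ⟪u - x, (s N).q⟫ + j * (e / 2) ≤ ⟪u - x, (s (N + j)).q⟫ := by
    intro j
    induction j with
    | zero => simp
    | succ j ih =>
      obtain ⟨a, ha, hq⟩ := (hS (N + j)).1
      rw [← add_assoc, hq, inner_add_right, real_inner_smul_right]
      have := key (N + j + 1) (by omega)
      push_cast
      nlinarith
  obtain ⟨j, hj⟩ := exists_nat_gt ((-⟪u - x, (s N).q⟫ + e / 4 * (N + 1) + 3 * G ^ 2 / e) / (e / 4))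
  rw [div_lt_iff₀ (by positivity)] at hj
  have h1 := grow j
  have h2 : ⟪u - x, (s (N + j)).q⟫ ≤ G * ‖(s (N + j)).q‖ :=
    (real_inner_le_norm _ _).trans (mul_le_mul_of_nonneg_right (by linarith) (norm_nonneg _))
  have h3 := mul_le_mul_of_nonneg_left (hQ (N + j)) (show 0 ≤ e / 12 by positivity)
  generalize ‖(s (N + j)).q‖ = z at h2 h3
  have h4 : G * z ≤ e / 12 * z ^ 2 + 3 * G ^ 2 / e := by
    have : e / 12 * z ^ 2 + 3 * G ^ 2 / e - G * z = e / 12 * (z - 6 * G / e) ^ 2 := by field_simp; ring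
    have h5 : 0 ≤ e / 12 * (z - 6 * G / e) ^ 2 := by positivity
    linarith
  push_cast at h3
  linarith

end Pool.Agent.H.MP_541d58_an
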